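import Mathlib

set_option autoImplicit false

open Finset

namespace Pool.Agent.Results.MP_7bc96b_al.SupportBound

variable {X : Type*} [AddCommGroup X] {n : ℕ} (χ : Fin n → X)

/-- The monoid `𝓑(χ_1, …, χ_n)` of the exponent vectors of the invariant monomials. -/
def invariants : Set (Fin n → ℕ) := {m | ∑ i, m i • χ i = 0}

/-- The elements of `𝓑` with support in `I`, as vectors of integers. -/
def BI (I : Finset (Fin n)) : Set (Fin n → ℤ) :=
  {z | ∃ m ∈ invariants χ, (∀ i, m i ≠ 0 → i ∈ I) ∧ z = fun i => (m i : ℤ)}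

/-- For every `I` the group `ℤ𝓑_I` is generated by the `𝓑_J`, `J ⊆ I`, `|J| ≤ t`. -/
def Generates (t : ℕ) : Prop := ∀ I : Finset (Fin n),
  AddSubgroup.closure {z | ∃ J ⊆ I, J.card ≤ t ∧ z ∈ BI χ J} = AddSubgroup.closure (BI χ I)

/-- The least such `t`. -/
noncomputable def tau : ℕ := sInf {t | Generates χ t}

/-- the kernel, restricted to supports in `J` -/
def KJ (J : Finset (Fin n)) : AddSubgroup (Fin n → ℤ) where
  carrier := {z | (∀ i, z i ≠ 0 → i ∈ J) ∧ ∑ i, z i • χ i = 0}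
  zero_mem' := ⟨fun i h => absurd rfl h, by simp⟩
  add_mem' := by
    rintro x y ⟨h1, h2⟩ ⟨h3, h4⟩
    refine ⟨fun i h => ?_, ?_⟩
    · by_contra hi
      have e1 : x i = 0 := by by_contra h'; exact hi (h1 i h')
      have e2 : y i = 0 := by by_contra h'; exact hi (h3 i h')
      exact h (by simp [e1, e2])
    · simp only [Pi.add_apply, add_smul, Finset.sum_add_distrib, h2, h4, add_zero]
  neg_mem' := by
    rintro x ⟨h1, h2⟩
    refine ⟨fun i h => h1 i fun h0 => h (by simp [h0]), ?_⟩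
    simp only [Pi.neg_apply, neg_smul, Finset.sum_neg_distrib, h2, neg_zero]

theorem KJ_mono {J J' : Finset (Fin n)} (h : J ⊆ J') : KJ χ J ≤ KJ χ J' :=
  fun _ hz => ⟨fun i hi => h (hz.1 i hi), hz.2⟩

theorem BI_sub_KJ (J : Finset (Fin n)) : BI χ J ⊆ KJ χ J := by
  rintro _ ⟨m, hm, hs, rfl⟩
  refine ⟨fun i hi => hs i fun h => hi (by simp [h]), ?_⟩
  have : ∑ i, m i • χ i = 0 := hm
  simpa using this

/-- a submodule of a module with `r` generators has `r` generators -/
theorem exists_generators {r : ℕ} {f : Fin r → X} (hf : Submodule.span ℤ (Set.range f) = ⊤)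
    (X' : Submodule ℤ X) : ∃ (k : ℕ) (g : Fin k → X), k ≤ r ∧
      Submodule.span ℤ (Set.range g) = X' := by
  let φ : (Fin r → ℤ) →ₗ[ℤ] X := Fintype.linearCombination ℤ f
  have hφ : LinearMap.range φ = ⊤ := by
    rw [Fintype.range_linearCombination, hf]
  obtain ⟨k, ⟨b⟩⟩ := Submodule.nonempty_basis_of_pid (Pi.basisFun ℤ (Fin r)) (X'.comap φ)
  refine ⟨k, fun i => φ (b i), ?_, ?_⟩
  · have h1 : Module.finrank ℤ (X'.comap φ) = k := by
      rw [Module.finrank_eq_card_basis b, Fintype.card_fin]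
    have h2 := Submodule.finrank_le (X'.comap φ)
    rw [h1] at h2
    simpa using h2
  · have h1 : Set.range (fun i => φ (b i : Fin r → ℤ)) =
        φ '' (Set.range fun i => (b i : Fin r → ℤ)) := by
      rw [← Set.range_comp]
      rfl
    have h2 : Submodule.span ℤ (Set.range fun i => (b i : Fin r → ℤ)) = X'.comap φ := by
      have h3 : (Set.range fun i => (b i : Fin r → ℤ)) = (X'.comap φ).subtype '' (Set.range b) := by
        rw [← Set.range_comp]
        rfl
      rw [h3, Submodule.span_image, b.span_eq, Submodule.map_top, Submodule.range_subtype]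
    rw [h1, Submodule.span_image, h2, Submodule.map_comap_eq, hφ, top_inf_eq]

theorem span_zmod {p : ℕ} {V : Type*} [AddCommGroup V] [Module (ZMod p) V] {S : Set V}
    (hS : Submodule.span ℤ S = ⊤) : Submodule.span (ZMod p) S = ⊤ := by
  rw [eq_top_iff]
  intro x _
  have h1 : x ∈ Submodule.span ℤ S := by rw [hS]; trivial
  induction h1 using Submodule.span_induction with
  | mem y hy => exact Submodule.subset_span hy
  | zero => exact Submodule.zero_mem _
  | add y z _ _ h1 h2 => exact Submodule.add_mem _ (h1 trivial) (h2 trivial)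
  | smul a y _ h1 => exact zsmul_mem (h1 trivial) a

theorem span_int {p : ℕ} {V : Type*} [AddCommGroup V] [Module (ZMod p) V] {S : Set V}
    (hS : Submodule.span (ZMod p) S = ⊤) : Submodule.span ℤ S = ⊤ := by
  rw [eq_top_iff]
  intro x _
  have h1 : x ∈ Submodule.span (ZMod p) S := by rw [hS]; trivial
  induction h1 using Submodule.span_induction with
  | mem y hy => exact Submodule.subset_span hy
  | zero => exact Submodule.zero_mem _
  | add y z _ _ h1 h2 => exact Submodule.add_mem _ (h1 trivial) (h2 trivial)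
  | smul a y _ h1 =>
    obtain ⟨b, rfl⟩ := ZMod.intCast_surjective a
    rw [Int.cast_smul_eq_zsmul]
    exact zsmul_mem (h1 trivial) b

theorem exists_basis_subset {p : ℕ} [Fact p.Prime] {V : Type*} [AddCommGroup V] [Module (ZMod p) V]
    {ι : Type*} [Finite ι] (v : ι → V) {k : ℕ} (w : Fin k → V)
    (hw : Submodule.span ℤ (Set.range w) = ⊤) (hv : Submodule.span ℤ (Set.range v) = ⊤) :
    ∃ T : Finset ι, T.card ≤ k ∧ Submodule.span ℤ (v '' T) = ⊤ := by
  classical
  obtain ⟨κ, a, hainj, hspa, hli⟩ := exists_linearIndependent' (ZMod p) v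
  have : Finite κ := Finite.of_injective a hainj
  have : Fintype κ := Fintype.ofFinite κ
  have hfin : Module.finrank (ZMod p) V ≤ k := by
    have h2 := finrank_le_of_span_eq_top (span_zmod (p := p) hw)
    rwa [Fintype.card_fin] at h2
  have : Module.Finite (ZMod p) V := by
    refine Module.Finite.of_basis (ι := κ) (Module.Basis.mk hli ?_)
    rw [hspa, span_zmod hv]
  have hcard : Fintype.card κ ≤ k := hli.fintype_card_le_finrank.trans hfin
  refine ⟨Finset.univ.image a, Finset.card_image_le.trans (by rwa [Finset.card_univ]), ?_⟩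
  refine span_int (p := p) ?_
  have h1 : (v '' ((Finset.univ.image a : Finset ι) : Set ι)) = Set.range (v ∘ a) := by
    rw [Finset.coe_image, Finset.coe_univ, Set.image_univ, ← Set.range_comp]
  rw [h1, hspa, span_zmod hv]

/-- few of the characters generate up to an index prime to `p` -/
theorem exists_small {r : ℕ} {f : Fin r → X} (hf : Submodule.span ℤ (Set.range f) = ⊤)
    (I : Finset (Fin n)) {p : ℕ} (hp : p.Prime) : ∃ T ⊆ I, T.card ≤ r ∧ ∃ s : ℤ, ¬ (p : ℤ) ∣ s ∧
      ∀ j ∈ I, s • χ j ∈ Submodule.span ℤ (χ '' T) := by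
  classical
  have : Fact p.Prime := ⟨hp⟩
  obtain ⟨X', hX'⟩ : ∃ X', X' = Submodule.span ℤ (χ '' (I : Set (Fin n))) := ⟨_, rfl⟩
  obtain ⟨k, g, hk, hg⟩ := exists_generators hf X'
  obtain ⟨P, hP⟩ : ∃ P : Submodule ℤ X', P = Ideal.span {(p : ℤ)} • (⊤ : Submodule ℤ X') := ⟨_, rfl⟩
  have hpz : ∀ x : X' ⧸ P, p • x = 0 := by
    intro x
    obtain ⟨y, rfl⟩ := P.mkQ_surjective x
    rw [← map_nsmul, Submodule.mkQ_apply, Submodule.Quotient.mk_eq_zero, hP]
    have := Submodule.smul_mem_smul (Ideal.mem_span_singleton_self (p : ℤ))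
      (Submodule.mem_top (x := y) (R := ℤ))
    simpa using this
  have hgm : ∀ i, g i ∈ X' := fun i => by
    rw [← hg]
    exact Submodule.subset_span ⟨i, rfl⟩
  have hχm : ∀ i ∈ I, χ i ∈ X' := fun i hi => by
    rw [hX']
    exact Submodule.subset_span ⟨i, hi, rfl⟩
  have key : ∀ (S : Set X'), Submodule.span ℤ (X'.subtype '' S) = X' →
      Submodule.span ℤ (P.mkQ '' S) = ⊤ := by
    intro S hS
    have h3 : Submodule.span ℤ S = ⊤ := by
      rw [eq_top_iff]
      rintro ⟨x, hx⟩ -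
      have h5 : x ∈ (Submodule.span ℤ S).map X'.subtype := by
        rw [← Submodule.span_image, hS]
        exact hx
      obtain ⟨y, hy, hyx⟩ := h5
      have : y = ⟨x, hx⟩ := Subtype.ext hyx
      rwa [← this]
    rw [Submodule.span_image, h3, Submodule.map_top, Submodule.range_mkQ]
  have hw : Submodule.span ℤ (Set.range fun i => P.mkQ ⟨g i, hgm i⟩) = ⊤ := by
    have h2 : (Set.range fun i => P.mkQ ⟨g i, hgm i⟩) =
        P.mkQ '' (Set.range fun i => (⟨g i, hgm i⟩ : X')) := by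
      rw [← Set.range_comp]
      rfl
    rw [h2]
    refine key _ ?_
    rw [← Set.range_comp]
    exact hg
  have hv : Submodule.span ℤ (Set.range fun i : I => P.mkQ ⟨χ i, hχm i i.2⟩) = ⊤ := by
    have h2 : (Set.range fun i : I => P.mkQ ⟨χ i, hχm i i.2⟩) =
        P.mkQ '' (Set.range fun i : I => (⟨χ i, hχm i i.2⟩ : X')) := by
      rw [← Set.range_comp]
      rfl
    rw [h2]
    refine key _ ?_
    have h4 : (X'.subtype '' (Set.range fun i : I => (⟨χ i, hχm i i.2⟩ : X'))) =
        χ '' (I : Set (Fin n)) := by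
      rw [← Set.range_comp]
      ext y
      simp
    rw [h4, ← hX']
  obtain ⟨T0, hT0, hT1⟩ := @exists_basis_subset p _ (X' ⧸ P) _ (AddCommGroup.zmodModule hpz) I _
    (fun i : I => P.mkQ ⟨χ i, hχm i i.2⟩) k _ hw hv
  obtain ⟨T, hT⟩ : ∃ T : Finset (Fin n), T = T0.image fun i : I => (i : Fin n) := ⟨_, rfl⟩
  have hTI : T ⊆ I := by
    rw [hT]
    intro i hi
    obtain ⟨j, -, rfl⟩ := Finset.mem_image.1 hi
    exact j.2
  refine ⟨T, hTI, ?_, ?_⟩
  · rw [hT]
    exact Finset.card_image_le.trans (hT0.trans hk)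
  -- Nakayama
  obtain ⟨U, hU⟩ : ∃ U, U = Submodule.span ℤ (χ '' (T : Set (Fin n))) := ⟨_, rfl⟩
  have hle : X'.map U.mkQ ≤ Ideal.span {(p : ℤ)} • X'.map U.mkQ := by
    rintro _ ⟨x, hx, rfl⟩
    have h1 : P.mkQ ⟨x, hx⟩ ∈ Submodule.span ℤ ((fun i : I => P.mkQ ⟨χ i, hχm i i.2⟩) '' T0) := by
      rw [hT1]; trivial
    have h2 : ((fun i : I => P.mkQ ⟨χ i, hχm i i.2⟩) '' T0) =
        P.mkQ '' ((fun i : I => (⟨χ i, hχm _ i.2⟩ : X')) '' T0) := by
      rw [← Set.image_comp]
      rfl
    rw [h2, Submodule.span_image] at h1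
    obtain ⟨y, hy, hyx⟩ := h1
    have h3 : (⟨x, hx⟩ : X') - y ∈ P := by
      rw [← Submodule.Quotient.mk_eq_zero, ← Submodule.mkQ_apply, map_sub, hyx, sub_self]
    have h4 : (y : X) ∈ U := by
      have h5 : (y : X) ∈ (Submodule.span ℤ ((fun i : I => (⟨χ i, hχm _ i.2⟩ : X')) '' T0)).map
          X'.subtype := ⟨y, hy, rfl⟩
      rw [← Submodule.span_image] at h5
      rw [hU]
      refine Submodule.span_mono ?_ h5
      rintro _ ⟨_, ⟨i, hi, rfl⟩, rfl⟩
      refine ⟨i, ?_, rfl⟩
      rw [hT]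
      exact Finset.mem_coe.2 (Finset.mem_image_of_mem _ hi)
    have h5 : (⟨x, hx⟩ : X') - y ∈ Ideal.span {(p : ℤ)} • (⊤ : Submodule ℤ X') := hP ▸ h3
    have h6 : U.mkQ (((⟨x, hx⟩ : X') - y : X') : X) ∈ Ideal.span {(p : ℤ)} • X'.map U.mkQ := by
      have h7 : (((⟨x, hx⟩ : X') - y : X') : X) ∈
          (Ideal.span {(p : ℤ)} • (⊤ : Submodule ℤ X')).map X'.subtype := ⟨_, h5, rfl⟩
      rw [Submodule.map_smul'', Submodule.map_top, Submodule.range_subtype] at h7
      rw [← Submodule.map_smul'']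
      exact ⟨_, h7, rfl⟩
    have h7 : U.mkQ x = U.mkQ (((⟨x, hx⟩ : X') - y : X') : X) := by
      rw [← sub_eq_zero, ← map_sub, Submodule.mkQ_apply, Submodule.Quotient.mk_eq_zero]
      have : x - (((⟨x, hx⟩ : X') - y : X') : X) = y := by
        simp
      rw [this]
      exact h4
    rw [h7]
    exact h6
  have hfg : (X'.map U.mkQ).FG := by
    refine Submodule.FG.map _ ?_
    rw [hX']
    exact Submodule.fg_span ((I.finite_toSet).image χ)
  obtain ⟨s, hs1, hs2⟩ := Submodule.exists_sub_one_mem_and_smul_eq_zero_of_fg_of_le_smul _ _ hfg hle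
  refine ⟨s, fun hdvd => ?_, fun j hj => ?_⟩
  · rw [Ideal.mem_span_singleton] at hs1
    have h1 : (p : ℤ) ∣ 1 := by
      have := dvd_sub hdvd hs1
      simpa using this
    have h2 := Int.natAbs_dvd_natAbs.2 h1
    simp only [Int.natAbs_natCast, Int.natAbs_one, Nat.dvd_one] at h2
    exact hp.one_lt.ne' h2
  · have h1 := hs2 _ (Submodule.mem_map_of_mem (f := U.mkQ) (hχm j hj))
    rw [← map_smul, Submodule.mkQ_apply, Submodule.Quotient.mk_eq_zero, hU] at h1
    exact h1

/-- the group generated by the relations with small support -/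
def HJ (I : Finset (Fin n)) (t : ℕ) : AddSubgroup (Fin n → ℤ) :=
  AddSubgroup.closure {z | ∃ J ⊆ I, J.card ≤ t ∧ z ∈ KJ χ J}

theorem smul_mem_HJ {r : ℕ} (I : Finset (Fin n)) {s : ℤ} {T : Finset (Fin n)} (hTI : T ⊆ I)
    (hT : T.card ≤ r) (hs : ∀ j ∈ I, s • χ j ∈ Submodule.span ℤ (χ '' T)) {z : Fin n → ℤ}
    (hz : z ∈ KJ χ I) : s • z ∈ HJ χ I (r + 1) := by
  classical
  have h1 : ∀ j, ∃ c : Fin n → ℤ, j ∈ I → ∑ i ∈ T, c i • χ i = s • χ j := by
    intro j
    by_cases hj : j ∈ I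
    · obtain ⟨c, hc⟩ := (Submodule.mem_span_image_finset_iff_exists_fun' ℤ).1 (hs j hj)
      exact ⟨c, fun _ => hc⟩
    · exact ⟨0, fun h => absurd h hj⟩
  choose c hc using h1
  let e : Fin n → (Fin n → ℤ) := fun j i => (if i = j then s else 0) - (if i ∈ T then c j i else 0)
  have he : ∀ j ∈ I, e j ∈ KJ χ (insert j T) := by
    intro j hj
    refine ⟨fun i hi => ?_, ?_⟩
    · by_contra hn
      rw [Finset.mem_insert, not_or] at hn
      exact hi (by simp [e, hn.1, hn.2])
    · simp only [e, sub_smul, Finset.sum_sub_distrib, ite_smul, zero_smul, Finset.sum_ite_eq',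
        Finset.mem_univ, if_true]
      rw [← Finset.sum_filter, ← hc j hj]
      simp
  have he' : ∀ j ∈ I, e j ∈ HJ χ I (r + 1) := fun j hj =>
    AddSubgroup.subset_closure ⟨insert j T, Finset.insert_subset hj hTI,
      (Finset.card_insert_le _ _).trans (by omega), he j hj⟩
  have hsum : ∑ j ∈ I, z j • e j ∈ HJ χ I (r + 1) :=
    AddSubgroup.sum_mem _ fun j hj => AddSubgroup.zsmul_mem _ (he' j hj) _
  have hsumK : ∑ j ∈ I, z j • e j ∈ KJ χ I :=
    AddSubgroup.sum_mem _ fun j hj => AddSubgroup.zsmul_mem _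
      (KJ_mono χ (Finset.insert_subset hj hTI) (he j hj)) _
  have hdiff : s • z - ∑ j ∈ I, z j • e j ∈ KJ χ T := by
    refine ⟨fun i hi => ?_, ((KJ χ I).sub_mem ((KJ χ I).zsmul_mem hz s) hsumK).2⟩
    by_contra hn
    apply hi
    simp only [Pi.sub_apply, Pi.smul_apply, Finset.sum_apply, smul_eq_mul, e, if_neg hn, sub_zero,
      mul_ite, mul_zero, Finset.sum_ite_eq]
    split_ifs with h
    · ring
    · have : z i = 0 := by
        by_contra h'
        exact h (hz.1 i h')
      rw [this]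
      ring
  have := AddSubgroup.add_mem _ (show s • z - ∑ j ∈ I, z j • e j ∈ HJ χ I (r + 1) from
    AddSubgroup.subset_closure ⟨T, hTI, by omega, hdiff⟩) hsum
  simpa using this

theorem mem_HJ {r : ℕ} {f : Fin r → X} (hf : Submodule.span ℤ (Set.range f) = ⊤)
    (I : Finset (Fin n)) {z : Fin n → ℤ} (hz : z ∈ KJ χ I) : z ∈ HJ χ I (r + 1) := by
  obtain ⟨A, hA⟩ : ∃ A : AddSubgroup ℤ, ∀ N : ℤ, N ∈ A ↔ N • z ∈ HJ χ I (r + 1) :=
    ⟨(HJ χ I (r + 1)).comap (AddMonoidHom.flip (smulAddHom ℤ (Fin n → ℤ)) z), fun N => Iff.rfl⟩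
  obtain ⟨a, ha⟩ := Int.subgroup_cyclic A
  have hone : a.natAbs = 1 := by
    by_contra h
    obtain ⟨p, hp, hpa⟩ := Nat.exists_prime_and_dvd h
    obtain ⟨T, hTI, hT, s, hs, hsp⟩ := exists_small χ hf I hp
    have h1 : s ∈ A := (hA s).2 (smul_mem_HJ χ I hTI hT hsp hz)
    rw [ha, AddSubgroup.mem_closure_singleton] at h1
    obtain ⟨b, rfl⟩ := h1
    apply hs
    rw [smul_eq_mul]
    exact Dvd.dvd.mul_left (Int.natCast_dvd.2 hpa) b
  have h1 : (1 : ℤ) ∈ A := by
    rw [ha, AddSubgroup.mem_closure_singleton]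
    rcases Int.natAbs_eq a with h | h
    · exact ⟨1, by rw [h, hone]; norm_num⟩
    · exact ⟨-1, by rw [h, hone]; norm_num⟩
  have := (hA 1).1 h1
  rwa [one_smul] at this

/-- `J` is the support of an invariant monomial -/
def Balanced (J : Finset (Fin n)) : Prop := ∃ m ∈ invariants χ, ∀ i, m i ≠ 0 ↔ i ∈ J

theorem exists_drop [Module.Finite ℤ X] {J0 J : Finset (Fin n)} (h0 : J0 ⊆ J)
    (hJ : Balanced χ J) (hlt : J0.card + Module.finrank ℤ X < J.card) :
    ∃ J', J0 ⊆ J' ∧ J' ⊆ J ∧ J'.card < J.card ∧ Balanced χ J' := by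
  classical
  obtain ⟨m, hm, hmJ⟩ := hJ
  have hnl : ¬ LinearIndependent ℤ (fun i : (J \ J0 : Finset (Fin n)) => χ i) := by
    intro hli
    have h1 := hli.fintype_card_le_finrank
    rw [Fintype.card_coe, Finset.card_sdiff_of_subset h0] at h1
    omega
  rw [Fintype.not_linearIndependent_iff] at hnl
  obtain ⟨g0, hg0, i0, hi0⟩ := hnl
  -- a relation with a positive entry
  obtain ⟨g, hgs, hgsum, j, hj⟩ : ∃ g : Fin n → ℤ, (∀ i, g i ≠ 0 → i ∈ J \ J0) ∧
      ∑ i, g i • χ i = 0 ∧ ∃ j, 0 < g j := by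
    let g1 : Fin n → ℤ := fun i => if h : i ∈ J \ J0 then g0 ⟨i, h⟩ else 0
    have h1 : ∀ i, g1 i ≠ 0 → i ∈ J \ J0 := by
      intro i hi
      by_contra h
      exact hi (by simp only [g1]; rw [dif_neg h])
    have h2 : ∑ i, g1 i • χ i = 0 := by
      rw [← hg0]
      rw [← Finset.sum_subset (Finset.subset_univ (J \ J0))]
      · rw [← Finset.sum_coe_sort]
        refine Finset.sum_congr rfl fun i _ => ?_
        simp only [g1]
        rw [dif_pos i.2]
      · intro i _ hi
        simp only [g1]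
        rw [dif_neg hi, zero_smul]
    have h3 : g1 i0 ≠ 0 := by
      simp only [g1]
      rw [dif_pos i0.2]
      exact hi0
    rcases lt_or_gt_of_ne h3 with h | h
    · refine ⟨-g1, fun i hi => h1 i fun h0 => hi (by simp [h0]), ?_, i0, by simpa using h⟩
      simp only [Pi.neg_apply, neg_smul, Finset.sum_neg_distrib, h2, neg_zero]
    · exact ⟨g1, h1, h2, i0, h⟩
  obtain ⟨k, hk, hkmin⟩ := Finset.exists_min_image (Finset.univ.filter fun i => 0 < g i)
    (fun i => (m i : ℚ) / g i) ⟨j, by simp [hj]⟩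
  have hkpos : 0 < g k := (Finset.mem_filter.1 hk).2
  have hnn : ∀ i, 0 ≤ g k * (m i : ℤ) - (m k : ℤ) * g i := by
    intro i
    by_cases hi : 0 < g i
    · have h1 := hkmin i (by simp [hi])
      rw [div_le_div_iff₀ (by exact_mod_cast hkpos) (by exact_mod_cast hi)] at h1
      have h2 : (m k : ℤ) * g i ≤ (m i : ℤ) * g k := by exact_mod_cast h1
      linarith
    · have h1 : 0 ≤ g k * (m i : ℤ) := by positivity
      have h2 : (m k : ℤ) * g i ≤ 0 :=
        mul_nonpos_of_nonneg_of_nonpos (by positivity) (not_lt.1 hi)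
      linarith
  let m' : Fin n → ℕ := fun i => (g k * (m i : ℤ) - (m k : ℤ) * g i).toNat
  have hm'c : ∀ i, (m' i : ℤ) = g k * (m i : ℤ) - (m k : ℤ) * g i := fun i =>
    Int.toNat_of_nonneg (hnn i)
  have hm' : m' ∈ invariants χ := by
    have h1 : ∑ i, (m' i : ℤ) • χ i = 0 := by
      simp only [hm'c, sub_smul, mul_smul, Finset.sum_sub_distrib, ← Finset.smul_sum, hgsum]
      have h2 : ∑ i, (m i : ℤ) • χ i = 0 := by
        have h3 : ∑ i, m i • χ i = 0 := hm
        simpa using h3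
      rw [h2]
      simp
    have h2 : ∑ i, m' i • χ i = 0 := by simpa using h1
    exact h2
  have hmk : m k ≠ 0 := (hmJ k).2 (Finset.sdiff_subset (hgs k hkpos.ne'))
  refine ⟨Finset.univ.filter fun i => m' i ≠ 0, ?_, ?_, ?_, m', hm', fun i => by simp⟩
  · intro i hi
    have hgi : g i = 0 := by
      by_contra h
      exact (Finset.mem_sdiff.1 (hgs i h)).2 hi
    have h1 : (m' i : ℤ) ≠ 0 := by
      rw [hm'c, hgi, mul_zero, sub_zero]
      exact mul_ne_zero hkpos.ne' (by exact_mod_cast (hmJ i).2 (h0 hi))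
    simpa using h1
  · intro i hi
    by_contra hn
    have h1 : m i = 0 := by
      by_contra h
      exact hn ((hmJ i).1 h)
    have h2 : g i = 0 := by
      by_contra h
      exact hn (Finset.sdiff_subset (hgs i h))
    have h3 : (m' i : ℤ) = 0 := by rw [hm'c, h1, h2]; simp
    have h4 : m' i ≠ 0 := (Finset.mem_filter.1 hi).2
    exact h4 (by exact_mod_cast h3)
  · refine Finset.card_lt_card ⟨?_, fun hsub => ?_⟩
    · intro i hi
      by_contra hn
      have h1 : m i = 0 := by
        by_contra h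
        exact hn ((hmJ i).1 h)
      have h2 : g i = 0 := by
        by_contra h
        exact hn (Finset.sdiff_subset (hgs i h))
      have h3 : (m' i : ℤ) = 0 := by rw [hm'c, h1, h2]; simp
      have h4 : m' i ≠ 0 := (Finset.mem_filter.1 hi).2
      exact h4 (by exact_mod_cast h3)
    · have h1 := (Finset.mem_filter.1 (hsub (Finset.sdiff_subset (hgs k hkpos.ne')))).2
      apply h1
      have h3 : (m' k : ℤ) = 0 := by rw [hm'c]; ring
      exact_mod_cast h3

/-- Carathéodory -/
theorem exists_balanced [Module.Finite ℤ X] {J0 I : Finset (Fin n)} (h0 : J0 ⊆ I)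
    (hI : Balanced χ I) :
    ∃ J, J0 ⊆ J ∧ J ⊆ I ∧ J.card ≤ J0.card + Module.finrank ℤ X ∧ Balanced χ J := by
  induction hc : I.card using Nat.strong_induction_on generalizing I with
  | _ c ih =>
    by_cases hle : I.card ≤ J0.card + Module.finrank ℤ X
    · exact ⟨I, h0, subset_rfl, hle, hI⟩
    · obtain ⟨J', h1, h2, h3, h4⟩ := exists_drop χ h0 hI (not_le.1 hle)
      obtain ⟨J, h5, h6, h7, h8⟩ := ih J'.card (hc ▸ h3) h1 h4 rfl
      exact ⟨J, h5, h6.trans h2, h7, h8⟩

theorem KJ_le_of_balanced {J : Finset (Fin n)} (hJ : Balanced χ J) :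
    KJ χ J ≤ AddSubgroup.closure (BI χ J) := by
  intro z hz
  obtain ⟨m, hm, hmJ⟩ := hJ
  obtain ⟨N, hN⟩ : ∃ N : ℕ, N = ∑ i, (z i).natAbs := ⟨_, rfl⟩
  have hm0 : ∑ i, m i • χ i = 0 := hm
  have hm0' : ∑ i, (m i : ℤ) • χ i = 0 := by simpa using hm0
  have hnn : ∀ i, 0 ≤ z i + N * m i := by
    intro i
    by_cases hi : i ∈ J
    · have h1 : 1 ≤ m i := Nat.one_le_iff_ne_zero.2 ((hmJ i).2 hi)
      have h2 : (z i).natAbs ≤ N := by
        rw [hN]
        exact Finset.single_le_sum (f := fun i => (z i).natAbs) (fun _ _ => Nat.zero_le _)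
          (Finset.mem_univ i)
      have h3 : (z i).natAbs ≤ N * m i := h2.trans (Nat.le_mul_of_pos_right _ h1)
      have h4 : ((z i).natAbs : ℤ) ≤ (N : ℤ) * m i := by exact_mod_cast h3
      have h5 := neg_abs_le (z i)
      rw [Int.abs_eq_natAbs] at h5
      linarith
    · have h1 : z i = 0 := by
        by_contra h
        exact hi (hz.1 i h)
      rw [h1]
      positivity
  have e1 : (fun i => z i + N * m i) ∈ BI χ J := by
    refine ⟨fun i => (z i + N * m i).toNat, ?_, ?_, ?_⟩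
    · have h1 : ∑ i, (((z i + N * m i).toNat : ℕ) : ℤ) • χ i = 0 := by
        have h2 : ∀ i, (((z i + N * m i).toNat : ℕ) : ℤ) = z i + N * m i := fun i =>
          Int.toNat_of_nonneg (hnn i)
        simp only [h2, add_smul, mul_smul, Finset.sum_add_distrib, ← Finset.smul_sum, hz.2]
        rw [hm0']
        simp
      have h2 : ∑ i, (z i + N * m i).toNat • χ i = 0 := by simpa only [natCast_zsmul] using h1
      exact h2
    · intro i hi
      by_contra hn
      have h1 : z i = 0 := by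
        by_contra h
        exact hn (hz.1 i h)
      have h2 : m i = 0 := by
        by_contra h
        exact hn ((hmJ i).1 h)
      exact hi (by show (z i + N * m i).toNat = 0; rw [h1, h2]; simp)
    · funext i
      exact (Int.toNat_of_nonneg (hnn i)).symm
  have e2 : (fun i => (m i : ℤ)) ∈ BI χ J := ⟨m, hm, fun i hi => (hmJ i).1 hi, rfl⟩
  have e3 : z = (fun i => z i + N * m i) - (N : ℤ) • (fun i => (m i : ℤ)) := by
    funext i
    simp
  rw [e3]
  exact AddSubgroup.sub_mem _ (AddSubgroup.subset_closure e1)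
    (AddSubgroup.zsmul_mem _ (AddSubgroup.subset_closure e2) _)

theorem generates [Module.Finite ℤ X] {r : ℕ} {f : Fin r → X}
    (hf : Submodule.span ℤ (Set.range f) = ⊤) : Generates χ (1 + Module.finrank ℤ X + r) := by
  classical
  intro I
  apply le_antisymm
  · refine (AddSubgroup.closure_le _).2 ?_
    rintro z ⟨J, hJ, -, m, hm, hs, rfl⟩
    exact AddSubgroup.subset_closure ⟨m, hm, fun i hi => hJ (hs i hi), rfl⟩
  · refine (AddSubgroup.closure_le _).2 ?_
    rintro z ⟨m, hm, hs, rfl⟩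
    obtain ⟨I', hI'⟩ : ∃ I' : Finset (Fin n), I' = Finset.univ.filter fun i => m i ≠ 0 := ⟨_, rfl⟩
    have hI'I : I' ⊆ I := fun i hi => hs i (by rw [hI'] at hi; exact (Finset.mem_filter.1 hi).2)
    have hbal : Balanced χ I' := ⟨m, hm, fun i => by rw [hI']; simp⟩
    have hz : (fun i => (m i : ℤ)) ∈ KJ χ I' :=
      BI_sub_KJ χ I' ⟨m, hm, fun i hi => by rw [hI']; simpa using hi, rfl⟩
    have h1 := mem_HJ χ hf I' hz
    have h2 : HJ χ I' (r + 1) ≤ AddSubgroup.closure
        {z | ∃ J ⊆ I, J.card ≤ 1 + Module.finrank ℤ X + r ∧ z ∈ BI χ J} := by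
      refine (AddSubgroup.closure_le _).2 ?_
      rintro y ⟨J0, hJ0, hc, hy⟩
      obtain ⟨J, h3, h4, h5, h6⟩ := exists_balanced χ hJ0 hbal
      have h7 := KJ_le_of_balanced χ h6 (KJ_mono χ h3 hy)
      have h8 : BI χ J ⊆ {z | ∃ J ⊆ I, J.card ≤ 1 + Module.finrank ℤ X + r ∧ z ∈ BI χ J} :=
        fun w hw => ⟨J, h4.trans hI'I, by omega, hw⟩
      exact AddSubgroup.closure_mono h8 h7
    exact h2 h1

/-- For every finitely generated abelian group `X` and every finite sequence of elements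
`χ_1, …, χ_n` the number `τ(𝓑)` exists and is at most `1 + (free rank of X) + rk(X)`. -/
theorem result {X : Type*} [AddCommGroup X] [AddGroup.FG X] {n : ℕ} (χ : Fin n → X) :
    Generates χ (tau χ) ∧ tau χ ≤ 1 + Module.finrank ℤ X + AddGroup.rank X := by
  have hfin : Module.Finite ℤ X := Module.Finite.iff_addGroup_fg.2 inferInstance
  obtain ⟨S, hS, hS'⟩ := AddGroup.rank_spec X
  have h1 : Submodule.span ℤ (Set.range fun i : Fin S.card => ((S.equivFin.symm i : S) : X)) = ⊤ := by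
    have h2 : (Set.range fun i : Fin S.card => ((S.equivFin.symm i : S) : X)) = S := by
      ext x
      constructor
      · rintro ⟨i, rfl⟩
        exact (S.equivFin.symm i).2
      · intro hx
        exact ⟨S.equivFin ⟨x, hx⟩, by simp⟩
    rw [h2, eq_top_iff]
    intro x _
    have h3 : x ∈ AddSubgroup.closure (S : Set X) := by rw [hS']; trivial
    exact (Submodule.span_int_eq_addSubgroupClosure (S : Set X) ▸ h3 :
      x ∈ (Submodule.span ℤ (S : Set X)).toAddSubgroup)
  have h2 := generates χ h1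
  rw [hS] at h2
  exact ⟨Nat.sInf_mem (s := {t | Generates χ t}) ⟨_, h2⟩, Nat.sInf_le h2⟩

end Pool.Agent.Results.MP_7bc96b_al.SupportBound
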